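import Pool.Agent.Helper1.FF2.Goals2
import Pool.Agent.Helper75.FF.StmtTri

/-!
# Packet StmtRest (MP_7cb822_co): counting around a bad vertex
-/

namespace Pool.Agent.Helper48.FF

open Finset
open Pool.Agent.Helper34.FF hiding StmtG
open Pool.Agent.Helper1.FF2
open scoped symmDiff Classical

theorem Vcl_mono {V F : Type} [Fintype V] [Fintype F] (T : Tri V F) {S S' : Finset F}
    (h : S ⊆ S') : Vcl T S ⊆ Vcl T S' := by
  intro v hv
  simp only [Vcl, mem_filter, mem_univ, true_and] at hv ⊢
  obtain ⟨f, hf, hvf⟩ := hv
  exact ⟨f, h hf, hvf⟩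

theorem Vcl_empty {V F : Type} [Fintype V] [Fintype F] (T : Tri V F) :
    Vcl T (∅ : Finset F) = ∅ := by
  ext v
  simp [Vcl]

theorem per_int {β : Type*} (f : ℤ → β) (l : ℕ) (h : ∀ i, f (i + l) = f i) (i m : ℤ) :
    f (i + m * l) = f i := by
  have hnat : ∀ (n : ℕ) (i : ℤ), f (i + n * l) = f i := by
    intro n
    induction n with
    | zero => intro i; simp
    | succ n ih =>
      intro i
      have : i + ((n + 1 : ℕ) : ℤ) * l = (i + n * l) + l := by push_cast; ring
      rw [this, h, ih]
  rcases Int.eq_nat_or_neg m with ⟨n, hn | hn⟩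
  · subst hn; exact hnat n i
  · subst hn
    have := hnat n (i + -(n : ℤ) * l)
    rw [← this]
    congr 1
    ring

theorem per_dvd {β : Type*} (f : ℤ → β) (l : ℕ) (h : ∀ i, f (i + l) = f i) (i j : ℤ)
    (hd : (l : ℤ) ∣ i - j) : f i = f j := by
  obtain ⟨m, hm⟩ := hd
  have : i = j + m * l := by
    have : i = j + l * m := by omega
    rw [this]; ring
  rw [this, per_int f l h]

theorem pf_StmtRest : StmtRest := by
  intro V F _ _ T hS e l E u U α hl huE perU perα hUE hUU hcov hα hrun
  have hlZ : (1 : ℤ) ≤ l := by exact_mod_cast hl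
  obtain ⟨-, -, -, hTri4, -⟩ := Pool.Agent.Helper75.FF.pf_StmtTri V F T hS
  -- faces at `u` in a transitional sector
  have hF1 : ∀ i, α i = 0 → ∃ f ∈ U i, u ∈ T.tri f := fun i hi =>
    (hTri4 (U i) u ((hα i).1 hi)).1
  have hlink : ∀ k, α k ≠ 0 → (∀ f, u ∈ T.tri f → f ∈ U k) ∨ (∀ f, u ∈ T.tri f → f ∉ U k) := by
    intro k hk
    apply hS.link
    intro e' he' hu
    apply hk
    rw [hα]
    simp only [Tri.Vbd, mem_filter, mem_univ, true_and]
    exact ⟨e', he', hu⟩
  have hVin : ∀ S : Finset F, u ∈ T.Vin S ↔ ∀ f, u ∈ T.tri f → f ∈ S := by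
    intro S
    simp [Tri.Vin]
  have hT1 : ((Ico (0 : ℤ) l).filter fun i => α i = 0).card ≤
      (univ.filter fun f => u ∈ T.tri f).card := by
    have hch : ∀ i, ∃ f, α i = 0 → f ∈ U i ∧ u ∈ T.tri f := by
      intro i
      by_cases hi : α i = 0
      · obtain ⟨f, hf, huf⟩ := hF1 i hi
        exact ⟨f, fun _ => ⟨hf, huf⟩⟩
      · obtain ⟨f, -⟩ := hS.face u
        exact ⟨f, fun h => absurd h hi⟩
    choose g hg using hch
    apply Finset.card_le_card_of_injOn g
    · intro i hi
      simp only [coe_filter, mem_Ico, Set.mem_setOf_eq, mem_univ, true_and] at hi ⊢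
      exact (hg i hi.2).2
    · intro i hi j hj hij
      simp only [coe_filter, mem_Ico, Set.mem_setOf_eq] at hi hj
      by_contra hne
      have hnd : ¬ (l : ℤ) ∣ i - j := by
        intro hd
        rcases lt_trichotomy i j with h | h | h
        · have := Int.le_of_dvd (by omega) ((dvd_sub_comm).1 hd)
          omega
        · exact hne h
        · have := Int.le_of_dvd (by omega) hd
          omega
      have h1 := (hg i hi.2).1
      have h2 := (hg j hj.2).1
      rw [← hij] at h2
      exact (Finset.disjoint_left.1 (hUU i j hnd)) h1 h2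
  refine ⟨hT1, ?_, ?_⟩
  · rintro ⟨i₀, hi₀⟩
    obtain ⟨f₀, hf₀, huf₀⟩ := hF1 i₀ hi₀
    have hnone : ∀ k, α k ≠ 0 → ∀ f, u ∈ T.tri f → f ∉ U k := by
      intro k hk
      rcases hlink k hk with h | h
      · exfalso
        have h1 := h f₀ huf₀
        have : (l : ℤ) ∣ i₀ - k := by
          by_contra hnd
          exact (Finset.disjoint_left.1 (hUU i₀ k hnd)) hf₀ h1
        apply hk
        rw [← per_dvd α l perα i₀ k this]
        exact hi₀
      · exact h
    -- the next transitional index
    have hnext : ∀ t, ∃ j, α t = 0 → t < j ∧ j ≤ t + l ∧ α j = 0 ∧ ∀ k, t < k → k < j → α k ≠ 0 := by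
      intro t
      by_cases ht : α t = 0
      · have hex : ∃ n : ℕ, α (t + 1 + n) = 0 := by
          refine ⟨l - 1, ?_⟩
          have : t + 1 + ((l - 1 : ℕ) : ℤ) = t + l := by
            rw [Nat.cast_sub hl]; push_cast; ring
          rw [this, perα]
          exact ht
        refine ⟨t + 1 + (Nat.find hex : ℕ), fun _ => ⟨by omega, ?_, Nat.find_spec hex, ?_⟩⟩
        · have : Nat.find hex ≤ l - 1 := by
            apply Nat.find_min'
            have : t + 1 + ((l - 1 : ℕ) : ℤ) = t + l := by
              rw [Nat.cast_sub hl]; push_cast; ring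
            rw [this, perα]
            exact ht
          omega
        · intro k hk1 hk2
          have hk3 : (k - (t + 1)).toNat < Nat.find hex := by omega
          have := Nat.find_min hex hk3
          have h4 : t + 1 + (((k - (t + 1)).toNat : ℕ) : ℤ) = k := by omega
          rw [h4] at this
          exact this
      · exact ⟨0, fun h => absurd h ht⟩
    choose nx hnx using hnext
    have hΩ : ∀ t, α t = 0 → (Vcl T ((Ico (t + 1) (nx t)).biUnion U)).card ≤ e := by
      intro t ht
      obtain ⟨h1, h2, h3, h4⟩ := hnx t ht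
      by_cases h5 : nx t = t + 1
      · rw [h5]
        simp [Vcl_empty]
      · apply le_of_lt
        apply hrun (t + 1) (nx t) (by omega) (by omega)
        · intro k hk1 hk2
          exact h4 k (by omega) hk2
        · rw [hVin]
          intro f hf
          rw [mem_compl, mem_biUnion]
          rintro ⟨k, hk, hfk⟩
          rw [mem_Ico] at hk
          exact hnone k (h4 k (by omega) hk.2) f hf hfk
    have hsub : Vcl T (((Ico (0 : ℤ) l).filter fun i => α i ≠ 0).biUnion U) ⊆
        ((Ico (0 : ℤ) l).filter fun i => α i = 0).biUnion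
          (fun t => Vcl T ((Ico (t + 1) (nx t)).biUnion U)) := by
      intro v hv
      simp only [Vcl, mem_filter, mem_univ, true_and, mem_biUnion, mem_Ico] at hv
      obtain ⟨f, ⟨k, ⟨⟨hk0, hkl⟩, hk⟩, hfk⟩, hvf⟩ := hv
      -- the last transitional index before `k`
      have hex : ∃ n : ℕ, α (k - n) = 0 := by
        refine ⟨((k - i₀) % l).toNat, ?_⟩
        have h1 := Int.emod_nonneg (k - i₀) (show (l : ℤ) ≠ 0 by omega)
        have h2 : (((k - i₀) % l).toNat : ℤ) = (k - i₀) % l := Int.toNat_of_nonneg h1
        rw [h2]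
        rw [per_dvd α l perα (k - (k - i₀) % l) i₀]
        · exact hi₀
        · have : k - (k - i₀) % l - i₀ = (k - i₀) - (k - i₀) % l := by ring
          rw [this]
          exact Int.dvd_self_sub_emod
      have hlast : (Nat.find hex : ℤ) < l := by
        by_contra hcon
        push Not at hcon
        have hcon' : l ≤ Nat.find hex := by exact_mod_cast hcon
        have h1 : Nat.find hex - l < Nat.find hex := by omega
        apply Nat.find_min hex h1
        have h2 : k - ((Nat.find hex - l : ℕ) : ℤ) = (k - (Nat.find hex : ℕ)) + l := by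
          rw [Nat.cast_sub hcon']; ring
        rw [h2, perα]
        exact Nat.find_spec hex
      set n := Nat.find hex with hn
      have hn0 : n ≠ 0 := by
        intro h0
        have := Nat.find_spec hex
        rw [← hn, h0] at this
        apply hk
        simpa using this
      have hαn : α (k - n) = 0 := Nat.find_spec hex
      have hmin : ∀ k', k - n < k' → k' ≤ k → α k' ≠ 0 := by
        intro k' h1 h2 h3
        have h4 : (k - k').toNat < n := by omega
        apply Nat.find_min hex h4
        have h5 : k - (((k - k').toNat : ℕ) : ℤ) = k' := by omega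
        rw [h5]
        exact h3
      -- shift
      obtain ⟨m, hm⟩ : ∃ m : ℤ, 0 ≤ k - n + m * l ∧ k - n + m * l < l := by
        by_cases h : 0 ≤ k - n
        · exact ⟨0, by omega, by omega⟩
        · exact ⟨1, by omega, by omega⟩
      set t := k - n + m * l with ht
      have hαt : α t = 0 := by
        rw [ht, per_int α l perα]
        exact hαn
      obtain ⟨h1, h2, h3, h4⟩ := hnx t hαt
      have hlt : k + m * l < nx t := by
        by_contra hcon
        push Not at hcon
        have h5 := hmin (nx t - m * l) (by omega) (by omega)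
        apply h5
        have h6 : α (nx t - m * l) = α (nx t) := by
          have := per_int α l perα (nx t - m * l) m
          rw [← this]
          congr 1
          ring
        rw [h6]
        exact h3
      simp only [mem_biUnion, mem_filter, mem_Ico]
      refine ⟨t, ⟨⟨hm.1, hm.2⟩, hαt⟩, ?_⟩
      simp only [Vcl, mem_filter, mem_univ, true_and, mem_biUnion, mem_Ico]
      refine ⟨f, ⟨k + m * l, ⟨by omega, hlt⟩, ?_⟩, hvf⟩
      rw [per_int U l perU]
      exact hfk
    calc (Vcl T (((Ico (0 : ℤ) l).filter fun i => α i ≠ 0).biUnion U)).card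
        ≤ (((Ico (0 : ℤ) l).filter fun i => α i = 0).biUnion
          (fun t => Vcl T ((Ico (t + 1) (nx t)).biUnion U))).card := card_le_card hsub
      _ ≤ ((Ico (0 : ℤ) l).filter fun i => α i = 0).card * e := by
          apply Finset.card_biUnion_le_card_mul
          intro t ht
          rw [mem_filter] at ht
          exact hΩ t ht.2
      _ ≤ _ := Nat.mul_le_mul_right _ hT1
  · intro hno
    obtain ⟨f, hf⟩ := hS.face u
    have hfE : f ∉ E := by
      have := (hVin Eᶜ).1 huE f hf
      rwa [mem_compl] at this
    obtain ⟨i₀, hi₀⟩ := hcov f hfE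
    have hall : ∀ f, u ∈ T.tri f → f ∈ U i₀ := by
      rcases hlink i₀ (hno i₀) with h | h
      · exact h
      · exact absurd hi₀ (h f hf)
    refine ⟨i₀, (hVin _).2 hall, ?_⟩
    have hsub : Eᶜ \ U i₀ ⊆ (Ico (i₀ + 1) (i₀ + l)).biUnion U := by
      intro g hg
      rw [mem_sdiff, mem_compl] at hg
      obtain ⟨i, hi⟩ := hcov g hg.1
      rw [mem_biUnion]
      have h1 := Int.emod_nonneg (i - i₀) (show (l : ℤ) ≠ 0 by omega)
      have h2 := Int.emod_lt_of_pos (i - i₀) (show (0 : ℤ) < l by omega)
      have hUi : U (i₀ + (i - i₀) % l) = U i := by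
        apply per_dvd U l perU
        have : i₀ + (i - i₀) % l - i = -((i - i₀) - (i - i₀) % l) := by ring
        rw [this, dvd_neg]
        exact Int.dvd_self_sub_emod
      refine ⟨i₀ + (i - i₀) % l, ?_, by rw [hUi]; exact hi⟩
      rw [mem_Ico]
      have h3 : (i - i₀) % l ≠ 0 := by
        intro h0
        rw [h0, add_zero] at hUi
        apply hg.2
        rw [hUi]
        exact hi
      constructor
      · omega
      · omega
    refine (card_le_card (Vcl_mono T hsub)).trans ?_
    by_cases hl1 : l = 1
    · subst hl1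
      simp [Vcl_empty]
    · apply le_of_lt
      apply hrun (i₀ + 1) (i₀ + l) (by omega) (by omega)
      · intro k _ _
        exact hno k
      · rw [hVin]
        intro g hg
        rw [mem_compl, mem_biUnion]
        rintro ⟨k, hk, hgk⟩
        rw [mem_Ico] at hk
        have hnd : ¬ (l : ℤ) ∣ i₀ - k := by
          intro hd
          have := Int.le_of_dvd (by omega) ((dvd_sub_comm).1 hd)
          omega
        exact (Finset.disjoint_left.1 (hUU i₀ k hnd)) (hall g hg) hgk

end Pool.Agent.Helper48.FF
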